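import Pool.Agent.H83.Ehr6

/-!
# The free Ehresmann monoid is weakly left coherent (Q2)

The definitions used in the statement (`EhresmannMonoid`, `FE`, `WeaklyLeftCoherent`, ...) are in
`Pool/Agent/H83/EhrDefs.lean`.
-/

open Pool.Agent.H83.Ehr

universe u

/-- For every nonempty set `X` (of any cardinality) the free Ehresmann monoid `FE X` is weakly
left coherent: every finitely generated left ideal is finitely presented as a left act. -/
theorem Pool.Agent.Results.MP_9a323a_al.LeftCoherent.result
    (X : Type u) [Nonempty X] : WeaklyLeftCoherent (FE X) :=
  weaklyLeftCoherent_FE
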